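import Pool.Agent.H61.Tu.Final

/-!
# MP_663250_gt: welded string links up to `w_(m+1)`-equivalence

Two welded string links are `w_(m+1)`-equivalent (`Diagram.WEquiv m`: welded moves and
surgery on arrow trees with at least `m + 1` tails) if and only if

* their peripheral systems are isomorphic modulo `γ_(m+1)` (`Diagram.PeripheralIso m`), and
* their twisted Alexander determinants agree, up to powers of the determinants of the bottom
  meridians, for all representations by matrices `1 + t M_i` of the bottom meridians over
  commutative rings, `t ^ (m + 1) = 0` (`Diagram.SameAlexander m`).
-/

namespace Pool.Agent.Results.MP_663250_gt.WkEquivalence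

open Pool.Agent.H61.Tu

theorem result (n m : ℕ) (D D' : Diagram n) :
    Diagram.WEquiv m D D' ↔ Diagram.PeripheralIso m D D' ∧ Diagram.SameAlexander m D D' :=
  final m D D'

end Pool.Agent.Results.MP_663250_gt.WkEquivalence
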